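import Mathlib
import Pool.Agent.Helper37.LocGlob
import Pool.Agent.Helper37.Small
import Pool.Agent.Helper37.Capacity

/-!
# Harmonic measure of boundary points lying in power-type cusps

For `1/2 < α < 1` put `W_α = {x + iy : x > 0, |y| < x ^ α}`.  For a domain `D` of the extended
complex plane, `B_α(D)` is the set of finite boundary points `z₀` of `D` such that, for some
`ε > 0`, every component of `D ∩ {|z - z₀| < ε}` having `z₀` on its boundary lies in a rotated
copy of `W_α` with vertex `z₀`.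

We prove that for EVERY `α` in `(1/2, 1)` and every domain `D` whose boundary has positive
logarithmic capacity, the harmonic measure of `B_α(D)` is zero.
-/

open Set Filter Topology MeasureTheory Metric
open scoped Real ENNReal OnePoint

namespace Pool.Agent.Results.MP_400747_an.HarmonicMeasureCusps

/-! ### Superharmonic functions and harmonic measure in the extended plane `OnePoint ℂ` -/

/-- The mean value of `v` over the circle with centre `c` and radius `r`:
`(1 / 2π) ∫_0^{2π} v (c + r e^{it}) dt`. -/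
noncomputable def circleMean (v : OnePoint ℂ → ℝ≥0∞) (c : ℂ) (r : ℝ) : ℝ≥0∞ :=
  (ENNReal.ofReal (2 * π))⁻¹ * ∫⁻ t in Ioc (0 : ℝ) (2 * π), v ((circleMap c r t : ℂ) : OnePoint ℂ)

/-- `v` is a nonnegative superharmonic function on the open subset `D` of the extended plane
(the value `∞` is allowed): it is lower semicontinuous on `D`; at every finite point `z` of `D`
the mean values over all sufficiently small circles about `z` are at most `v z`; and if `∞ ∈ D`
then the mean values over all sufficiently large circles about `0` are at most `v ∞` (this is the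
super-mean value inequality at `0` for the function `ζ ↦ v (1 / ζ)`). -/
structure IsSuperharmonic (D : Set (OnePoint ℂ)) (v : OnePoint ℂ → ℝ≥0∞) : Prop where
  lsc : LowerSemicontinuousOn v D
  mean_le : ∀ z : ℂ, (z : OnePoint ℂ) ∈ D →
    ∃ ρ : ℝ, 0 < ρ ∧ ∀ r : ℝ, 0 < r → r < ρ → circleMean v z r ≤ v z
  mean_le_infty : (∞ : OnePoint ℂ) ∈ D →
    ∃ R : ℝ, 0 < R ∧ ∀ r : ℝ, R < r → circleMean v 0 r ≤ v ∞

/-- Harmonic measure of the boundary set `E ⊆ ∂D`, with respect to the domain `D` and the point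
`z ∈ D`: the upper Perron-Wiener-Brelot solution at `z` of the Dirichlet problem in `D` whose
boundary function is the indicator function of `E`, that is, the infimum of `v z` over all
nonnegative superharmonic functions `v` on `D` with lower limit at least `1` at every point
of `E`.  (It is an outer measure in `E`, equal to the harmonic measure of `E` when `E` is a Borel
set.) -/
noncomputable def harmonicMeasure (D : Set (OnePoint ℂ)) (z : OnePoint ℂ)
    (E : Set (OnePoint ℂ)) : ℝ≥0∞ :=
  ⨅ (v : OnePoint ℂ → ℝ≥0∞) (_ : IsSuperharmonic D v)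
    (_ : ∀ ζ ∈ E, 1 ≤ liminf v (𝓝[D] ζ)), v z

/-! ### Logarithmic capacity -/

/-- The logarithmic kernel `log (1 / |z - w|)`, truncated from below at `0`, with the value `∞`
on the diagonal. -/
noncomputable def logKernel (z w : ℂ) : ℝ≥0∞ :=
  if z = w then ⊤ else ENNReal.ofReal (Real.log (1 / ‖z - w‖))

/-- The subset `E` of the plane has positive logarithmic capacity: some compact subset `K` of `E`
carries a probability measure of finite logarithmic energy.  (On a compact set the negative part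
of `log (1 / |z - w|)` is bounded, so the energy `∬ log (1 / |z - w|) dμ dμ` is finite if and only
if the energy of its positive part is.) -/
def HasPositiveCapacity (E : Set ℂ) : Prop :=
  ∃ K : Set ℂ, K ⊆ E ∧ IsCompact K ∧ ∃ μ : Measure ℂ, IsProbabilityMeasure μ ∧ μ Kᶜ = 0 ∧
    ∫⁻ z, ∫⁻ w, logKernel z w ∂μ ∂μ < ⊤

/-! ### The cusp regions -/

/-- `W_α = {x + iy : x > 0, |y| < x ^ α}`. -/
def cuspRegion (α : ℝ) : Set ℂ := {w | 0 < w.re ∧ |w.im| < w.re ^ α}

/-- The copy of `W_α` with vertex `z₀` obtained by the rotation by the angle `θ` about `0`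
followed by the translation by `z₀`. -/
def cuspCopy (α : ℝ) (z₀ : ℂ) (θ : ℝ) : Set ℂ :=
  (fun w : ℂ => Complex.exp (θ * Complex.I) * w + z₀) '' cuspRegion α

/-- The part of `D` in the disc `{|z - z₀| < ε}`. -/
def discPart (D : Set (OnePoint ℂ)) (z₀ : ℂ) (ε : ℝ) : Set ℂ :=
  {z : ℂ | (z : OnePoint ℂ) ∈ D ∧ ‖z - z₀‖ < ε}

/-- The set `B_α(D)` of the finite points `z₀` of `∂D` such that, for some `ε > 0`, every
connected component of `D ∩ {|z - z₀| < ε}` having `z₀` on its boundary lies in some copy of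
`W_α` with vertex `z₀`. -/
def cuspPoints (α : ℝ) (D : Set (OnePoint ℂ)) : Set (OnePoint ℂ) :=
  {ζ | ∃ z₀ : ℂ, ζ = (z₀ : OnePoint ℂ) ∧ (z₀ : OnePoint ℂ) ∈ frontier D ∧
    ∃ ε : ℝ, 0 < ε ∧ ∀ x ∈ discPart D z₀ ε,
      z₀ ∈ frontier (connectedComponentIn (discPart D z₀ ε) x) →
        ∃ θ : ℝ, connectedComponentIn (discPart D z₀ ε) x ⊆ cuspCopy α z₀ θ}

/-! ### Auxiliary lemmas -/

open Pool.Agent.Helper37

/-- Extension of a function on the plane by the value `a` at infinity. -/
def ext (g : ℂ → ℝ) (a : ℝ) : OnePoint ℂ → ℝ := fun x => OnePoint.rec a g x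

@[simp] lemma ext_coe (g : ℂ → ℝ) (a : ℝ) (z : ℂ) : ext g a (z : OnePoint ℂ) = g z := rfl

@[simp] lemma ext_infty (g : ℂ → ℝ) (a : ℝ) : ext g a ∞ = a := rfl

lemma ext_continuousOn {D : Set (OnePoint ℂ)} (hD : IsOpen D) {g : ℂ → ℝ} {a : ℝ}
    (hg : ContinuousOn g {z : ℂ | (z : OnePoint ℂ) ∈ D})
    (ht : Tendsto g (cocompact ℂ) (𝓝 a)) : ContinuousOn (ext g a) D := by
  intro x hx
  apply ContinuousAt.continuousWithinAt
  induction x using OnePoint.rec with
  | infty =>
    rw [OnePoint.continuousAt_infty', coclosedCompact_eq_cocompact]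
    exact ht
  | coe z =>
    rw [OnePoint.continuousAt_coe]
    have hopen : IsOpen {z : ℂ | (z : OnePoint ℂ) ∈ D} := hD.preimage OnePoint.continuous_coe
    exact hg.continuousAt (hopen.mem_nhds hx)

lemma circleMean_ext {g : ℂ → ℝ} {a : ℝ} {z : ℂ} {r : ℝ} (hr : 0 < r)
    (hg : ContinuousOn g (sphere z r)) (h0 : ∀ w ∈ sphere z r, 0 ≤ g w) :
    circleMean (fun x => ENNReal.ofReal (ext g a x)) z r =
      ENNReal.ofReal (Real.circleAverage g z r) := by
  unfold circleMean
  simp only [ext_coe]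
  have hc : Continuous (fun t => g (circleMap z r t)) :=
    hg.comp_continuous (continuous_circleMap z r) (fun t => circleMap_mem_sphere z hr.le t)
  have hi : Integrable (fun t => g (circleMap z r t)) (volume.restrict (Ioc 0 (2 * π))) :=
    (hc.integrableOn_Icc (a := 0) (b := 2 * π)).mono_set Ioc_subset_Icc_self
  rw [← ofReal_integral_eq_lintegral_ofReal hi
    (Eventually.of_forall fun t => h0 _ (circleMap_mem_sphere z hr.le t)),
    Real.circleAverage_def, smul_eq_mul, intervalIntegral.integral_of_le Real.two_pi_pos.le,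
    ENNReal.ofReal_mul (p := (2 * π)⁻¹) (by positivity), ENNReal.ofReal_inv_of_pos Real.two_pi_pos]

lemma mem_cuspCopy_iff {α : ℝ} {z₀ : ℂ} {θ : ℝ} {w : ℂ} :
    w ∈ cuspCopy α z₀ θ ↔ InCusp α z₀ θ w := by
  unfold cuspCopy cuspRegion InCusp
  have hexp : Complex.exp (θ * Complex.I) * Complex.exp (-(θ * Complex.I)) = 1 := by
    rw [← Complex.exp_add, add_neg_cancel, Complex.exp_zero]
  constructor
  · rintro ⟨x, hx, rfl⟩
    have : (Complex.exp (θ * Complex.I) * x + z₀ - z₀) * Complex.exp (-(θ * Complex.I)) = x := by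
      rw [add_sub_cancel_right, mul_right_comm, hexp, one_mul]
    simp only [this]
    exact hx
  · intro h
    refine ⟨(w - z₀) * Complex.exp (-(θ * Complex.I)), h, ?_⟩
    show Complex.exp (θ * Complex.I) * ((w - z₀) * Complex.exp (-(θ * Complex.I))) + z₀ = w
    rw [mul_left_comm, hexp]
    ring

/-- The piece of `B_α(D)` belonging to the disc with centre `q` and radius `r`. -/
def piece (α : ℝ) (D : Set (OnePoint ℂ)) (q : ℂ) (r : ℝ) : Set ℂ :=
  {ξ : ℂ | ξ ∈ ball q (r / 4) ∧ (ξ : OnePoint ℂ) ∈ frontier D ∧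
    ∀ x ∈ {z : ℂ | (z : OnePoint ℂ) ∈ D} ∩ ball q r,
      ξ ∈ closure (connectedComponentIn ({z : ℂ | (z : OnePoint ℂ) ∈ D} ∩ ball q r) x) →
        ∃ θ : ℝ, ∀ w ∈ connectedComponentIn ({z : ℂ | (z : OnePoint ℂ) ∈ D} ∩ ball q r) x,
          InCusp α ξ θ w}

/-- Centres of the countable family of discs. -/
noncomputable def cen (j : ℕ × ℕ) : ℂ := TopologicalSpace.denseSeq ℂ j.1

/-- Radii of the countable family of discs. -/
noncomputable def radj (j : ℕ × ℕ) : ℝ := 1 / ((j.2 : ℝ) + 2)

lemma radj_pos (j : ℕ × ℕ) : 0 < radj j := by unfold radj; positivity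

lemma radj_le (j : ℕ × ℕ) : radj j ≤ 1 / 2 := by
  unfold radj
  apply one_div_le_one_div_of_le (by norm_num)
  have : (0 : ℝ) ≤ j.2 := Nat.cast_nonneg _
  linarith

/-- `B_α(D)` is covered by countably many pieces. -/
lemma cuspPoints_cover {α : ℝ} {D : Set (OnePoint ℂ)} (hD : IsOpen D) {ζ : OnePoint ℂ}
    (hζ : ζ ∈ cuspPoints α D) :
    ∃ (ξ : ℂ) (j : ℕ × ℕ), ζ = (ξ : OnePoint ℂ) ∧ ξ ∈ piece α D (cen j) (radj j) := by
  obtain ⟨ξ, rfl, hfr, ε, hε, hcomp⟩ := hζ
  obtain ⟨k, hk⟩ := exists_nat_one_div_lt (show (0 : ℝ) < ε / 2 by positivity)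
  have hr : 1 / ((k : ℝ) + 2) < ε / 2 := by
    refine lt_of_le_of_lt ?_ hk
    apply one_div_le_one_div_of_le (by positivity)
    linarith
  set r : ℝ := 1 / ((k : ℝ) + 2) with hrdef
  have hr0 : 0 < r := by positivity
  obtain ⟨q, hq⟩ := (TopologicalSpace.denseRange_denseSeq ℂ).exists_dist_lt ξ
    (show 0 < r / 4 by positivity)
  refine ⟨ξ, (q, k), rfl, ?_⟩
  have hsub : {z : ℂ | (z : OnePoint ℂ) ∈ D} ∩ ball (cen (q, k)) r ⊆ discPart D ξ ε := by
    rintro z ⟨hzD, hz⟩
    refine ⟨hzD, ?_⟩
    rw [mem_ball] at hz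
    rw [← dist_eq_norm]
    have h1 := dist_triangle z (cen (q, k)) ξ
    rw [dist_comm (cen (q, k)) ξ] at h1
    have h2 : dist ξ (cen (q, k)) < r / 4 := hq
    linarith
  refine ⟨hq, hfr, fun x hx hcl => ?_⟩
  have hxd : x ∈ discPart D ξ ε := hsub hx
  have hmono : connectedComponentIn ({z : ℂ | (z : OnePoint ℂ) ∈ D} ∩ ball (cen (q, k)) r) x ⊆
      connectedComponentIn (discPart D ξ ε) x := connectedComponentIn_mono x hsub
  have hnot : ξ ∉ connectedComponentIn (discPart D ξ ε) x := by
    intro h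
    have h1 : (ξ : OnePoint ℂ) ∈ D := (connectedComponentIn_subset _ _ h).1
    rw [hD.frontier_eq] at hfr
    exact hfr.2 h1
  have hfront : ξ ∈ frontier (connectedComponentIn (discPart D ξ ε) x) :=
    ⟨closure_mono hmono hcl, fun h => hnot (interior_subset h)⟩
  obtain ⟨θ, hθ⟩ := hcomp x hxd hfront
  exact ⟨θ, fun w hw => mem_cuspCopy_iff.1 (hθ (hmono hw))⟩

/-- The outer harmonic measure of `B_α(D)` vanishes. -/
theorem harmonicMeasure_cuspPoints {α : ℝ} (hα : 1 / 2 < α) (hα1 : α < 1)
    {D : Set (OnePoint ℂ)} (hD : IsOpen D)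
    (hcap : HasPositiveCapacity {z : ℂ | (z : OnePoint ℂ) ∈ frontier D})
    {z : OnePoint ℂ} (hz : z ∈ D) : harmonicMeasure D z (cuspPoints α D) = 0 := by
  set Df : Set ℂ := {z : ℂ | (z : OnePoint ℂ) ∈ D} with hDf
  have hDfo : IsOpen Df := hD.preimage OnePoint.continuous_coe
  have hfrD : ∀ x : OnePoint ℂ, x ∈ frontier D → x ∉ D := by
    intro x hx
    rw [hD.frontier_eq] at hx
    exact hx.2
  -- the probability measure with bounded potential
  obtain ⟨K, hKsub, hKc, μ, hμp, hμK, hμe⟩ := hcap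
  have hKdisj : Disjoint K Df := by
    rw [disjoint_left]
    intro x hxK hxD
    exact hfrD _ (hKsub hxK) hxD
  obtain ⟨N⟩ := exists_nuData (Df := Df) hKc hKdisj μ hμK hμe
  -- a bound for the complement when `∞ ∈ D`
  obtain ⟨R0, hR00, hR0⟩ : ∃ R0 : ℝ, 0 < R0 ∧ ((∞ : OnePoint ℂ) ∈ D → ∀ w : ℂ, R0 < ‖w‖ → w ∈ Df) := by
    by_cases hinf : (∞ : OnePoint ℂ) ∈ D
    · have h1 : ∀ᶠ x in 𝓝 (∞ : OnePoint ℂ), x ∈ D := hD.mem_nhds hinf
      have h2 : ∀ᶠ w : ℂ in coclosedCompact ℂ, (w : OnePoint ℂ) ∈ D :=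
        (OnePoint.tendsto_coe_infty).eventually h1
      rw [coclosedCompact_eq_cocompact] at h2
      obtain ⟨R0, hR0⟩ := Metric.hasBasis_cobounded_compl_closedBall (0 : ℂ) |>.eventually_iff.1
        (by rwa [Metric.cobounded_eq_cocompact])
      refine ⟨max R0 1, by positivity, fun _ w hw => ?_⟩
      apply hR0.2
      simp only [mem_compl_iff, mem_closedBall, dist_zero_right, not_le]
      exact lt_of_le_of_lt (le_max_left _ _) hw
    · exact ⟨1, one_pos, fun h => absurd h hinf⟩
  -- infimum is zero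
  rw [harmonicMeasure, ← nonpos_iff_eq_zero]
  refine ENNReal.le_of_forall_pos_le_add ?_
  intro ε hε _
  rw [zero_add]
  obtain ⟨ε', hε'0, hε'sum⟩ := ENNReal.exists_pos_sum_of_countable
    (ε := (ε : ℝ≥0∞)) (by simpa using hε.ne') (ℕ × ℕ)
  set Rst : ℝ := max N.B (R0 + 1) with hRst
  -- the functions for the pieces
  have hex : ∀ j : ℕ × ℕ, ∃ (g : ℂ → ℝ) (a : ℝ),
      (∃ Rs, Good Df Rs (piece α D (cen j) (radj j)) g a ∧
        ((∞ : OnePoint ℂ) ∈ D → Rs ≤ Rst)) ∧ ext g a z < ε' j := by
    intro j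
    have hEj3 : ∀ ξ ∈ piece α D (cen j) (radj j), ∀ x ∈ Df ∩ ball (cen j) (radj j),
        ξ ∈ closure (connectedComponentIn (Df ∩ ball (cen j) (radj j)) x) →
        ∃ θ : ℝ, ∀ w ∈ connectedComponentIn (Df ∩ ball (cen j) (radj j)) x, InCusp α ξ θ w :=
      fun ξ hξ => hξ.2.2
    have hEj1 : piece α D (cen j) (radj j) ⊆ ball (cen j) (radj j / 4) := fun ξ hξ => hξ.1
    have hEj2 : Disjoint (piece α D (cen j) (radj j)) Df := by
      rw [disjoint_left]
      intro ξ hξ hξD
      exact hfrD _ hξ.2.1 hξD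
    by_cases hempty : (piece α D (cen j) (radj j)).Nonempty
    · -- nonempty piece
      have hRsle : (∞ : OnePoint ℂ) ∈ D → max N.B (‖cen j‖ + radj j) ≤ Rst := by
        intro hinf
        obtain ⟨ξ, hξ⟩ := hempty
        have h1 : ‖ξ‖ ≤ R0 := by
          by_contra h
          push Not at h
          exact hfrD _ hξ.2.1 (hR0 hinf ξ h)
        have h2 : dist ξ (cen j) < radj j / 4 := hξ.1
        rw [dist_comm, dist_eq_norm] at h2
        have h3 : ‖cen j‖ ≤ ‖ξ‖ + ‖cen j - ξ‖ := by
          calc ‖cen j‖ = ‖ξ + (cen j - ξ)‖ := by congr 1; ring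
            _ ≤ _ := norm_add_le _ _
        have h4 := radj_le j
        have h5 := radj_pos j
        apply max_le_max le_rfl
        linarith
      induction z using OnePoint.rec with
      | infty =>
        obtain ⟨g, a, hg, ha⟩ := exists_good_small_infty hDfo N hα hα1 (radj_pos j) (radj_le j)
          (Rs := max N.B (‖cen j‖ + radj j)) (le_max_left _ _) (le_max_right _ _) hEj1 hEj3
          (ε := ε' j) (by exact_mod_cast hε'0 j)
        exact ⟨g, a, ⟨_, hg, hRsle⟩, ha⟩
      | coe z =>
        obtain ⟨g, a, hg, ha⟩ := exists_good_small hDfo N hα hα1 (radj_pos j) (radj_le j)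
          (Rs := max N.B (‖cen j‖ + radj j)) (le_max_left _ _) (le_max_right _ _) hEj1 hEj2 hEj3
          hz (ε := ε' j) (by exact_mod_cast hε'0 j)
        exact ⟨g, a, ⟨_, hg, hRsle⟩, ha⟩
    · -- empty piece
      rw [not_nonempty_iff_eq_empty] at hempty
      refine ⟨fun _ => 0, 0, ⟨Rst, ?_, fun _ => le_rfl⟩, ?_⟩
      · rw [hempty]
        refine ⟨le_rfl, fun _ _ => le_rfl, continuousOn_const, tendsto_const_nhds, ?_, ?_, ?_⟩
        · intro w _
          exact ⟨1, one_pos, fun r _ _ => by rw [Real.circleAverage_const]⟩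
        · intro r _
          rw [Real.circleAverage_const]
        · intro ξ hξ
          exact absurd hξ (notMem_empty _)
      · have : ext (fun _ => 0) 0 z = 0 := by
          induction z using OnePoint.rec with
          | infty => rfl
          | coe z => rfl
        rw [this]
        exact_mod_cast hε'0 j
  choose g a hgood hgz using hex
  choose Rs hgood hRs using hgood
  set u : ℕ × ℕ → OnePoint ℂ → ℝ≥0∞ := fun j x => ENNReal.ofReal (ext (g j) (a j) x) with hu
  set v : OnePoint ℂ → ℝ≥0∞ := fun x => ∑' j, u j x with hv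
  have hucont : ∀ j, ContinuousOn (ext (g j) (a j)) D := fun j =>
    ext_continuousOn hD (hgood j).cont (hgood j).tend
  have hcirc : ∀ (w : ℂ) (r : ℝ), 0 < r → sphere w r ⊆ Df →
      circleMean v w r = ∑' j, circleMean (u j) w r := by
    intro w r hr hsub
    unfold circleMean
    rw [hv]
    simp only
    rw [lintegral_tsum]
    · rw [ENNReal.tsum_mul_left]
    · intro j
      apply Measurable.aemeasurable
      apply ENNReal.measurable_ofReal.comp
      apply Continuous.measurable
      show Continuous (fun t => g j (circleMap w r t))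
      exact (hgood j).cont.comp_continuous (continuous_circleMap w r)
        (fun t => hsub (circleMap_mem_sphere w hr.le t))
  have hsup : IsSuperharmonic D v := by
    refine ⟨?_, ?_, ?_⟩
    · apply lowerSemicontinuousOn_tsum
      intro j
      exact (ENNReal.continuous_ofReal.comp_continuousOn (hucont j)).lowerSemicontinuousOn
    · intro w hw
      obtain ⟨ρ, hρ, hρsub⟩ := Metric.isOpen_iff.1 hDfo w hw
      refine ⟨ρ, hρ, fun r hr0 hrρ => ?_⟩
      have hsub : closedBall w r ⊆ Df := (closedBall_subset_ball hrρ).trans hρsub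
      have hsub' : sphere w r ⊆ Df := sphere_subset_closedBall.trans hsub
      rw [hcirc w r hr0 hsub']
      apply ENNReal.tsum_le_tsum
      intro j
      rw [hu]
      simp only
      rw [circleMean_ext hr0 ((hgood j).cont.mono hsub') (fun x hx => (hgood j).nonneg x (hsub' hx))]
      apply ENNReal.ofReal_le_ofReal
      rw [ext_coe]
      apply circleAverage_le_of_local hr0 ((hgood j).cont.mono hsub)
      intro x hx
      exact (hgood j).loc x (hsub (ball_subset_closedBall hx))
    · intro hinf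
      refine ⟨max Rst R0, by positivity, fun r hr => ?_⟩
      have hrst : Rst < r := lt_of_le_of_lt (le_max_left _ _) hr
      have hrR0 : R0 < r := lt_of_le_of_lt (le_max_right _ _) hr
      have hr0 : 0 < r := hR00.trans hrR0
      have hsub' : sphere (0 : ℂ) r ⊆ Df := by
        intro w hw
        apply hR0 hinf w
        have : ‖w‖ = r := by simpa using hw
        rwa [this]
      rw [hcirc 0 r hr0 hsub']
      apply ENNReal.tsum_le_tsum
      intro j
      rw [hu]
      simp only
      rw [circleMean_ext hr0 ((hgood j).cont.mono hsub') (fun x hx => (hgood j).nonneg x (hsub' hx))]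
      apply ENNReal.ofReal_le_ofReal
      rw [ext_infty]
      exact (hgood j).large r (lt_of_le_of_lt (hRs j hinf) hrst)
  have hlim : ∀ ζ ∈ cuspPoints α D, 1 ≤ liminf v (𝓝[D] ζ) := by
    intro ζ hζ
    obtain ⟨ξ, j, rfl, hξ⟩ := cuspPoints_cover hD hζ
    apply le_of_forall_lt
    intro c hc
    obtain ⟨c', hcc', hc'⟩ := exists_between hc
    refine lt_of_lt_of_le hcc' ?_
    apply le_liminf_of_le (by isBoundedDefault)
    rw [OnePoint.nhdsWithin_coe, eventually_map]
    have hc'top : c' ≠ ⊤ := (hc'.trans ENNReal.one_lt_top).ne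
    have hη : 0 < 1 - c'.toReal := by
      have : c'.toReal < 1 := by
        rw [← ENNReal.toReal_one]
        exact (ENNReal.toReal_lt_toReal hc'top ENNReal.one_ne_top).2 hc'
      linarith
    have := (hgood j).near ξ hξ _ hη
    rw [sub_sub_cancel] at this
    filter_upwards [this] with w hw
    calc c' = ENNReal.ofReal c'.toReal := (ENNReal.ofReal_toReal hc'top).symm
      _ ≤ ENNReal.ofReal (g j w) := ENNReal.ofReal_le_ofReal hw
      _ = u j w := rfl
      _ ≤ v w := ENNReal.le_tsum j
  calc (⨅ (v : OnePoint ℂ → ℝ≥0∞) (_ : IsSuperharmonic D v)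
        (_ : ∀ ζ ∈ cuspPoints α D, 1 ≤ liminf v (𝓝[D] ζ)), v z) ≤ v z :=
        iInf_le_of_le v (iInf_le_of_le hsup (iInf_le_of_le hlim le_rfl))
    _ = ∑' j, u j z := rfl
    _ ≤ ∑' j, (ε' j : ℝ≥0∞) := by
        apply ENNReal.tsum_le_tsum
        intro j
        rw [hu]
        simp only
        rw [← ENNReal.ofReal_coe_nnreal]
        exact ENNReal.ofReal_le_ofReal (hgz j).le
    _ ≤ ε := hε'sum.le

/-- **Main result.**  The set of exponents `α ∈ (1/2, 1)` such that, for every domain `D` of the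
extended complex plane whose boundary has positive logarithmic capacity, the set `B_α(D)` has
harmonic measure zero (with respect to every point of `D`), is all of `(1/2, 1)`. -/
theorem result :
    {α : ℝ | α ∈ Ioo (1 / 2 : ℝ) 1 ∧
      ∀ D : Set (OnePoint ℂ), IsOpen D → IsConnected D →
        HasPositiveCapacity {z : ℂ | (z : OnePoint ℂ) ∈ frontier D} →
          ∀ z ∈ D, harmonicMeasure D z (cuspPoints α D) = 0} = Ioo (1 / 2 : ℝ) 1 := by
  ext α
  constructor
  · exact fun h => h.1
  · exact fun h => ⟨h, fun D hD _ hcap z hz => harmonicMeasure_cuspPoints h.1 h.2 hD hcap hz⟩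

end Pool.Agent.Results.MP_400747_an.HarmonicMeasureCusps
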